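import Mathlib
import Pool.Agent.Helper259.RatDef
import Pool.Agent.Helper259.Orbit3Ht

set_option autoImplicit false

namespace Pool.Agent.Results.MP_a67235_nt.QuarticGrowth

open Pool.Agent.Helper259.AbsHt Pool.Agent.Helper259.RatDef Pool.Agent.Helper259.RatMaps
  Pool.Agent.Helper259.Orbit3 Pool.Agent.Helper259.Orbit3Ht

/-- `F` and `G` have the same order of growth. -/
def SameGrowth (F G : ℕ → ℝ) : Prop :=
  ∃ c₁ c₂ : ℝ, 0 < c₁ ∧ 0 < c₂ ∧ ∃ c₃ : ℕ, ∀ n ≥ c₃, c₁ * F n ≤ G n ∧ G n ≤ c₂ * F n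

/-- the points of the orbit -/
noncomputable def P (n : ℕ) : PSpace 3 :=
  Projectivization.mk Qbar (aff fun i => uu i n) (aff_ne _)

lemma ht_P (n : ℕ) : ht (P n) = absLogHeight (aff fun i => uu i n) := ht_mk _ _

lemma dense_P (S : Set ℕ) (hS : ∀ p : MvPolynomial (Fin 3) Qbar, p ≠ 0 →
    ∃ n ∈ S, MvPolynomial.eval (fun i => uu i n) p ≠ 0) :
    IsZariskiDense {Q : PSpace 3 | ∃ n ∈ S, P n = Q} := by
  rintro U ⟨T, hT, rfl⟩ ⟨P0, F, hF, hPF⟩
  obtain ⟨e, he⟩ := hT F hF
  have hF0 : F ≠ 0 := by rintro rfl; exact hPF (map_zero _)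
  obtain ⟨a, ha⟩ := exists_aff he hF0
  let p : MvPolynomial (Fin 3) Qbar :=
    MvPolynomial.aeval (Fin.cons 1 MvPolynomial.X : Fin 4 → MvPolynomial (Fin 3) Qbar) F
  have hp : ∀ v : Fin 3 → Qbar, MvPolynomial.eval v p = MvPolynomial.eval (aff v) F := by
    intro v
    have h1 : MvPolynomial.eval v p = MvPolynomial.aeval v p := rfl
    rw [h1, MvPolynomial.comp_aeval_apply]
    have h2 : (fun i => MvPolynomial.aeval v
        ((Fin.cons 1 MvPolynomial.X : Fin 4 → MvPolynomial (Fin 3) Qbar) i)) = aff v := by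
      funext i
      refine Fin.cases ?_ (fun j => ?_) i <;> simp [aff]
    rw [h2]
    rfl
  have hp0 : p ≠ 0 := by
    intro h
    apply ha
    rw [← hp, h, map_zero]
  obtain ⟨n, hnS, hn⟩ := hS p hp0
  refine ⟨P n, ⟨n, hnS, rfl⟩, F, hF, ?_⟩
  rw [P, eval_mk he, ← hp]
  exact hn

lemma not_same {g : ℕ → ℝ} (hg : SameGrowth (fun n => (4 : ℝ) ^ n * (n : ℝ) ^ 4) g)
    (δ : ℝ) (k : ℤ) (l : ℕ) (hl : l ≤ 3) :
    ¬ SameGrowth (fun n => δ ^ n * (n : ℝ) ^ l * Real.log n ^ k) g := by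
  rintro ⟨b1, b2, hb1, hb2, N2, hb⟩
  obtain ⟨a1, a2, ha1, ha2, N1, ha⟩ := hg
  set N := max (max N1 N2) 3 with hN
  have hNN : ∀ n ≥ N, N1 ≤ n ∧ N2 ≤ n ∧ 3 ≤ n := fun n hn =>
    ⟨((le_max_left _ _).trans (le_max_left _ _)).trans hn,
      ((le_max_right _ _).trans (le_max_left _ _)).trans hn, (le_max_right _ _).trans hn⟩
  have hMpos : ∀ n ≥ N, 0 < (4 : ℝ) ^ n * (n : ℝ) ^ 4 := by
    intro n hn
    have : (0 : ℝ) < n := by exact_mod_cast (by have := (hNN n hn).2.2; omega : 0 < n)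
    positivity
  have hlogpos : ∀ n ≥ N, 0 < Real.log (n : ℝ) := by
    intro n hn
    apply Real.log_pos
    exact_mod_cast (by have := (hNN n hn).2.2; omega : 1 < n)
  have hFpos : ∀ n ≥ N, 0 < δ ^ n * (n : ℝ) ^ l * Real.log n ^ k := by
    intro n hn
    have h1 := (ha n (hNN n hn).1).1
    have h2 := (hb n (hNN n hn).2.1).2
    have h3 := hMpos n hn
    have h4 : 0 < b2 * (δ ^ n * (n : ℝ) ^ l * Real.log n ^ k) :=
      (mul_pos ha1 h3).trans_le (h1.trans h2)
    exact (mul_pos_iff_of_pos_left hb2).mp h4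
  have hδn : ∀ n ≥ N, 0 < δ ^ n := by
    intro n hn
    have h1 := hFpos n hn
    have h2 : (0 : ℝ) < (n : ℝ) ^ l := by
      have : (0 : ℝ) < n := by exact_mod_cast (by have := (hNN n hn).2.2; omega : 0 < n)
      positivity
    have h3 : 0 < Real.log (n : ℝ) ^ k := zpow_pos (hlogpos n hn) k
    rw [mul_assoc] at h1
    exact (mul_pos_iff_of_pos_right (mul_pos h2 h3)).mp h1
  have hδ : 0 < δ := by
    by_contra hneg
    push Not at hneg
    have h1 := hδn (2 * N + 1) (by omega)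
    have h2 : δ ^ (2 * N + 1) ≤ 0 := by
      rw [pow_succ, pow_mul]
      exact mul_nonpos_of_nonneg_of_nonpos (by positivity) hneg
    linarith
  -- the logarithm of the quotient is bounded
  let D : ℕ → ℝ := fun n => n * (Real.log 4 - Real.log δ) + (4 - l) * Real.log n -
    k * Real.log (Real.log n)
  have hD : ∀ n ≥ N, |D n| ≤ |Real.log b1| + |Real.log a2| + |Real.log b2| + |Real.log a1| := by
    intro n hn
    have hn0 : (0 : ℝ) < n := by exact_mod_cast (by have := (hNN n hn).2.2; omega : 0 < n)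
    have e1 : Real.log ((4 : ℝ) ^ n * (n : ℝ) ^ 4) = n * Real.log 4 + 4 * Real.log n := by
      rw [Real.log_mul (by positivity) (by positivity), Real.log_pow, Real.log_pow]
      norm_num
    have e2 : Real.log (δ ^ n * (n : ℝ) ^ l * Real.log n ^ k) =
        n * Real.log δ + l * Real.log n + k * Real.log (Real.log n) := by
      rw [Real.log_mul (by positivity) (zpow_pos (hlogpos n hn) k).ne',
        Real.log_mul (by positivity) (by positivity), Real.log_pow, Real.log_pow, Real.log_zpow]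
    have h1 := Real.log_le_log (mul_pos ha1 (hMpos n hn))
      ((ha n (hNN n hn).1).1.trans (hb n (hNN n hn).2.1).2)
    have h2 := Real.log_le_log (mul_pos hb1 (hFpos n hn))
      ((hb n (hNN n hn).2.1).1.trans (ha n (hNN n hn).1).2)
    rw [Real.log_mul ha1.ne' (hMpos n hn).ne', Real.log_mul hb2.ne' (hFpos n hn).ne', e1, e2] at h1
    rw [Real.log_mul ha2.ne' (hMpos n hn).ne', Real.log_mul hb1.ne' (hFpos n hn).ne', e1, e2] at h2
    have p1 := neg_abs_le (Real.log a1)
    have p2 := le_abs_self (Real.log a2)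
    have p3 := neg_abs_le (Real.log b1)
    have p4 := le_abs_self (Real.log b2)
    have q1 := abs_nonneg (Real.log a1)
    have q2 := abs_nonneg (Real.log a2)
    have q3 := abs_nonneg (Real.log b1)
    have q4 := abs_nonneg (Real.log b2)
    rw [abs_le]
    constructor <;> simp only [D] <;> linarith
  set B := |Real.log b1| + |Real.log a2| + |Real.log b2| + |Real.log a1| with hB
  have hnat := tendsto_natCast_atTop_atTop (R := ℝ)
  have hlog : Filter.Tendsto (fun n : ℕ => Real.log (n : ℝ)) Filter.atTop Filter.atTop :=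
    Real.tendsto_log_atTop.comp hnat
  have r1 : Filter.Tendsto (fun n : ℕ => Real.log (n : ℝ) / n) Filter.atTop (nhds 0) :=
    (Real.isLittleO_log_id_atTop.tendsto_div_nhds_zero).comp hnat
  have r2 : Filter.Tendsto (fun n : ℕ => Real.log (Real.log (n : ℝ)) / Real.log n)
      Filter.atTop (nhds 0) :=
    (Real.isLittleO_log_id_atTop.tendsto_div_nhds_zero).comp hlog
  have r3 : Filter.Tendsto (fun n : ℕ => B / (n : ℝ)) Filter.atTop (nhds 0) :=
    tendsto_const_nhds.div_atTop hnat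
  have r4 : Filter.Tendsto (fun n : ℕ => B / Real.log (n : ℝ)) Filter.atTop (nhds 0) :=
    tendsto_const_nhds.div_atTop hlog
  -- first `δ = 4`
  have s1 : Filter.Tendsto (fun n : ℕ => D n / n) Filter.atTop
      (nhds (Real.log 4 - Real.log δ)) := by
    have h1 : Filter.Tendsto (fun n : ℕ => (Real.log 4 - Real.log δ) +
        (4 - l) * (Real.log (n : ℝ) / n) -
        k * (Real.log (Real.log (n : ℝ)) / Real.log n * (Real.log (n : ℝ) / n)))
        Filter.atTop (nhds ((Real.log 4 - Real.log δ) + (4 - l) * 0 - k * (0 * 0))) :=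
      (tendsto_const_nhds.add (r1.const_mul _)).sub ((r2.mul r1).const_mul _)
    simp only [mul_zero, add_zero, sub_zero] at h1
    refine h1.congr' ?_
    filter_upwards [Filter.eventually_ge_atTop N] with n hn
    have hn0 : (n : ℝ) ≠ 0 := by exact_mod_cast (by have := (hNN n hn).2.2; omega : n ≠ 0)
    have hl0 := (hlogpos n hn).ne'
    simp only [D]
    field_simp
  have s2 : Filter.Tendsto (fun n : ℕ => D n / n) Filter.atTop (nhds 0) := by
    refine squeeze_zero_norm' ?_ r3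
    filter_upwards [Filter.eventually_ge_atTop N] with n hn
    have hn0 : (0 : ℝ) < n := by exact_mod_cast (by have := (hNN n hn).2.2; omega : 0 < n)
    rw [Real.norm_eq_abs, abs_div, abs_of_pos hn0]
    exact div_le_div_of_nonneg_right (hD n hn) hn0.le
  have hL : Real.log 4 - Real.log δ = 0 := tendsto_nhds_unique s1 s2
  have s3 : Filter.Tendsto (fun n : ℕ => D n / Real.log n) Filter.atTop
      (nhds ((4 : ℝ) - l)) := by
    have h1 : Filter.Tendsto (fun n : ℕ => ((4 : ℝ) - l) -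
        k * (Real.log (Real.log (n : ℝ)) / Real.log n))
        Filter.atTop (nhds (((4 : ℝ) - l) - k * 0)) :=
      tendsto_const_nhds.sub (r2.const_mul _)
    simp only [mul_zero, sub_zero] at h1
    refine h1.congr' ?_
    filter_upwards [Filter.eventually_ge_atTop N] with n hn
    have hl0 := (hlogpos n hn).ne'
    simp only [D]
    rw [hL]
    field_simp
    ring
  have s4 : Filter.Tendsto (fun n : ℕ => D n / Real.log n) Filter.atTop (nhds 0) := by
    refine squeeze_zero_norm' ?_ r4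
    filter_upwards [Filter.eventually_ge_atTop N] with n hn
    rw [Real.norm_eq_abs, abs_div, abs_of_pos (hlogpos n hn)]
    exact div_le_div_of_nonneg_right (hD n hn) (hlogpos n hn).le
  have hfin : (4 : ℝ) - l = 0 := tendsto_nhds_unique s3 s4
  have : (l : ℝ) ≤ 3 := by exact_mod_cast hl
  linarith

/-- **Height growth of order `4 ^ n * n ^ 4` along a Zariski dense orbit in projective
3-space.** -/
theorem result : ∃ (d : ℕ) (f : RatMap 3 d) (P : ℕ → PSpace 3),
    f.IsDominant ∧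
    (∀ n, ∃ h : f.DefinedAt (P n), P (n + 1) = f.value (P n) h) ∧
    IsZariskiDense (Set.range P) ∧
    SameGrowth (fun n => (4 : ℝ) ^ n * (n : ℝ) ^ 4) (fun n => ht (P n)) ∧
    ∀ (δ : ℝ) (k : ℤ) (l : ℕ), l ≤ 3 →
      ¬ SameGrowth (fun n => δ ^ n * (n : ℝ) ^ l * Real.log n ^ k) (fun n => ht (P n)) := by
  obtain ⟨d, f, hf⟩ := exists_ratMap rr
  have hstep : ∀ n, ∃ h : f.DefinedAt (P n), f.value (P n) h = P (n + 1) := fun n =>
    hf (fun i => uu i n) (fun i => uu i (n + 1)) (fun i => orb_step n i)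
  obtain ⟨c₁, c₂, hc₁, hc₂, n₀, hn₀⟩ := asymp
  have hgr : SameGrowth (fun n => (4 : ℝ) ^ n * (n : ℝ) ^ 4) (fun n => ht (P n)) := by
    refine ⟨c₁, c₂, hc₁, hc₂, n₀, fun n hn => ?_⟩
    beta_reduce
    rw [ht_P]
    exact hn₀ n hn
  refine ⟨d, f, P, ?_, fun n => ?_, ?_, hgr, fun δ k l hl => not_same hgr δ k l hl⟩
  · intro U hU hne
    obtain ⟨Q, ⟨n, hn, rfl⟩, hQ⟩ := dense_P {n | 1 ≤ n} (fun p hp => by
      obtain ⟨n, hn, h⟩ := dense p hp 1
      exact ⟨n, hn, h⟩) U hU hne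
    obtain ⟨m, rfl⟩ : ∃ m, n = m + 1 := ⟨n - 1, by
      have : 1 ≤ n := hn
      omega⟩
    obtain ⟨h, e⟩ := hstep m
    exact ⟨P (m + 1), ⟨P m, h, e⟩, hQ⟩
  · obtain ⟨h, e⟩ := hstep n
    exact ⟨h, e.symm⟩
  · intro U hU hne
    obtain ⟨Q, ⟨n, -, rfl⟩, hQ⟩ := dense_P Set.univ (fun p hp => by
      obtain ⟨n, -, h⟩ := dense p hp 0
      exact ⟨n, trivial, h⟩) U hU hne
    exact ⟨P n, ⟨n, rfl⟩, hQ⟩

end Pool.Agent.Results.MP_a67235_nt.QuarticGrowth
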